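import Pool.Agent.helper1.T1N.SpecN

/-!
# Row t1:NFJ (MP_07c750_an): the Fejer majorant
-/

set_option autoImplicit false

open MeasureTheory Finset

namespace Pool.Agent.T1N

noncomputable section

open scoped FourierTransform

/-- the triangle -/
def NFJ_L (x : ℝ) : ℂ := ((max 0 (1 - |x|) : ℝ) : ℂ)

theorem NFJ_Lc : Continuous NFJ_L := by
  unfold NFJ_L
  exact Complex.continuous_ofReal.comp (continuous_const.max (continuous_const.sub continuous_abs))

theorem NFJ_L0 (x : ℝ) (h : 1 ≤ |x|) : NFJ_L x = 0 := by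
  unfold NFJ_L
  rw [max_eq_left (by linarith), Complex.ofReal_zero]

theorem NFJ_Li : Integrable NFJ_L := by
  refine NFJ_Lc.integrable_of_hasCompactSupport ?_
  refine HasCompactSupport.intro (isCompact_Icc (a := (-1 : ℝ)) (b := 1)) fun x hx => NFJ_L0 x ?_
  by_contra h
  exact hx ⟨by linarith [(abs_lt.1 (not_le.1 h)).1], (abs_lt.1 (not_le.1 h)).2.le⟩

theorem NFJ_real (t : ℝ) : ∫ v in (0 : ℝ)..1, 2 * (1 - v) * Real.cos (2 * Real.pi * t * v) = Real.sinc (Real.pi * t) ^ 2 := by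
  rcases eq_or_ne t 0 with h0 | h0
  · subst h0
    have h1 : ∀ v ∈ Set.uIcc (0 : ℝ) 1, HasDerivAt (fun v : ℝ => 2 * v - v ^ 2) (2 * (1 - v) * Real.cos (2 * Real.pi * 0 * v)) v := by
      intro v _
      rw [mul_zero, zero_mul, Real.cos_zero, mul_one]
      have := ((hasDerivAt_id v).const_mul 2).sub ((hasDerivAt_id v).pow 2)
      refine this.congr_deriv ?_
      simp
      ring
    rw [intervalIntegral.integral_eq_sub_of_hasDerivAt h1 (by
      apply Continuous.intervalIntegrable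
      fun_prop)]
    rw [mul_zero Real.pi, Real.sinc_zero]
    norm_num
  · have hπ : Real.pi ≠ 0 := Real.pi_ne_zero
    obtain ⟨a, ha⟩ : ∃ a, a = 2 * Real.pi * t := ⟨_, rfl⟩
    have ha0 : a ≠ 0 := by
      rw [ha]
      positivity
    rw [← ha]
    have h1 : ∀ v ∈ Set.uIcc (0 : ℝ) 1, HasDerivAt (fun v : ℝ => 2 * ((1 - v) * Real.sin (a * v) / a - Real.cos (a * v) / a ^ 2)) (2 * (1 - v) * Real.cos (a * v)) v := by
      intro v _
      have hl : HasDerivAt (fun v : ℝ => a * v) a v := by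
        simpa using (hasDerivAt_id v).const_mul a
      have hs := hl.sin
      have hc := hl.cos
      have hm : HasDerivAt (fun v : ℝ => 1 - v) (-1) v := by
        simpa using (hasDerivAt_id v).const_sub 1
      refine ((((hm.mul hs).div_const a).sub (hc.div_const (a ^ 2))).const_mul 2).congr_deriv ?_
      field_simp
      ring
    rw [intervalIntegral.integral_eq_sub_of_hasDerivAt h1 (by
      apply Continuous.intervalIntegrable
      fun_prop)]
    have h2 : Real.pi * t ≠ 0 := by positivity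
    rw [Real.sinc_of_ne_zero h2]
    have h3 : a = 2 * (Real.pi * t) := by
      rw [ha]
      ring
    have h4 := Real.cos_two_mul (Real.pi * t)
    have h5 := Real.sin_sq_add_cos_sq (Real.pi * t)
    simp only [mul_one, mul_zero, sub_self, zero_mul, zero_div, Real.sin_zero, Real.cos_zero, sub_zero, zero_sub]
    rw [h3, h4]
    field_simp
    nlinarith

theorem NFJ_four (t : ℝ) : 𝓕 NFJ_L t = ((Real.sinc (Real.pi * t) ^ 2 : ℝ) : ℂ) := by
  rw [Real.fourier_real_eq_integral_exp_smul]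
  obtain ⟨f, hf⟩ : ∃ f : ℝ → ℂ, f = fun v : ℝ => Complex.exp (((-2 * Real.pi * v * t : ℝ) : ℂ) * Complex.I) • NFJ_L v := ⟨_, rfl⟩
  have hfc : Continuous f := by
    rw [hf]
    have := NFJ_Lc
    fun_prop
  have h1 : ∫ v : ℝ, Complex.exp (((-2 * Real.pi * v * t : ℝ) : ℂ) * Complex.I) • NFJ_L v = ∫ v in (-1 : ℝ)..1, f v := by
    rw [← hf]
    symm
    refine intervalIntegral.integral_eq_integral_of_support_subset fun v hv => ?_
    rw [Function.mem_support] at hv
    by_contra h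
    apply hv
    have h2 : 1 ≤ |v| := by
      by_contra h3
      have h4 := abs_lt.1 (not_le.1 h3)
      exact h ⟨h4.1, h4.2.le⟩
    rw [hf]
    show Complex.exp (((-2 * Real.pi * v * t : ℝ) : ℂ) * Complex.I) • NFJ_L v = 0
    rw [NFJ_L0 v h2, smul_zero]
  have h2 : ∫ v in (-1 : ℝ)..1, f v = (∫ v in (-1 : ℝ)..0, f v) + ∫ v in (0 : ℝ)..1, f v :=
    (intervalIntegral.integral_add_adjacent_intervals (hfc.intervalIntegrable _ _) (hfc.intervalIntegrable _ _)).symm
  have h3 : ∫ v in (-1 : ℝ)..0, f v = ∫ v in (0 : ℝ)..1, f (-v) := by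
    rw [intervalIntegral.integral_comp_neg, neg_zero]
  have h4 : (∫ v in (0 : ℝ)..1, f (-v)) + ∫ v in (0 : ℝ)..1, f v = ∫ v in (0 : ℝ)..1, ((2 * (1 - v) * Real.cos (2 * Real.pi * t * v) : ℝ) : ℂ) := by
    rw [← intervalIntegral.integral_add (f := fun v => f (-v)) ((hfc.comp continuous_neg).intervalIntegrable _ _) (hfc.intervalIntegrable _ _)]
    refine intervalIntegral.integral_congr fun v hv => ?_
    rw [Set.uIcc_of_le zero_le_one] at hv
    have e1 : NFJ_L v = ((1 - v : ℝ) : ℂ) := by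
      unfold NFJ_L
      rw [abs_of_nonneg hv.1, max_eq_right (by linarith [hv.2])]
    have e2 : NFJ_L (-v) = ((1 - v : ℝ) : ℂ) := by
      unfold NFJ_L
      rw [abs_neg, abs_of_nonneg hv.1, max_eq_right (by linarith [hv.2])]
    show f (-v) + f v = _
    rw [hf]
    show Complex.exp (((-2 * Real.pi * (-v) * t : ℝ) : ℂ) * Complex.I) • NFJ_L (-v) + Complex.exp (((-2 * Real.pi * v * t : ℝ) : ℂ) * Complex.I) • NFJ_L v = _
    rw [e1, e2]
    obtain ⟨y, hy⟩ : ∃ y : ℝ, y = 2 * Real.pi * t * v := ⟨_, rfl⟩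
    have e3 : -2 * Real.pi * (-v) * t = y := by
      rw [hy]
      ring
    have e4 : -2 * Real.pi * v * t = -y := by
      rw [hy]
      ring
    rw [e3, e4, ← hy]
    have e5 : ((Real.cos y : ℝ) : ℂ) = (Complex.exp ((y : ℂ) * Complex.I) + Complex.exp (-(y : ℂ) * Complex.I)) / 2 := by
      rw [Complex.ofReal_cos]
      rfl
    rw [Complex.ofReal_mul (2 * (1 - v)), Complex.ofReal_mul 2, e5, smul_eq_mul, smul_eq_mul, Complex.ofReal_neg]
    push_cast
    ring
  rw [h1, h2, h3, h4, intervalIntegral.integral_ofReal, NFJ_real]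

theorem NFJ_bd (t : ℝ) : Real.sinc (Real.pi * t) ^ 2 ≤ 2 * (1 + t ^ 2)⁻¹ := by
  have h0 : (0 : ℝ) < 1 + t ^ 2 := by positivity
  rw [← div_eq_mul_inv, le_div_iff₀ h0]
  have h1 : Real.sinc (Real.pi * t) ^ 2 ≤ 1 := by
    rw [← sq_abs]
    exact pow_le_one₀ (abs_nonneg _) (Real.abs_sinc_le_one _)
  rcases le_or_gt (t ^ 2) 1 with h | h
  · nlinarith [sq_nonneg (Real.sinc (Real.pi * t))]
  · have ht : t ≠ 0 := by
      intro h2
      rw [h2] at h
      norm_num at h
    have hπt : Real.pi * t ≠ 0 := mul_ne_zero Real.pi_ne_zero ht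
    rw [Real.sinc_of_ne_zero hπt, div_pow, div_mul_eq_mul_div, div_le_iff₀ (by positivity)]
    have h2 : Real.sin (Real.pi * t) ^ 2 ≤ 1 := Real.sin_sq_le_one _
    have h3 : 1 ≤ Real.pi ^ 2 := by nlinarith [Real.pi_gt_three]
    nlinarith [sq_nonneg t, mul_nonneg (sub_nonneg.2 h3) (sq_nonneg t), sq_nonneg (Real.sin (Real.pi * t))]

theorem NFJ_Fc : Continuous fun t : ℝ => Real.sinc (Real.pi * t) ^ 2 :=
  (Real.continuous_sinc.comp (continuous_const.mul continuous_id)).pow 2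

theorem NFJ_Fi : Integrable fun t : ℝ => Real.sinc (Real.pi * t) ^ 2 := by
  refine (integrable_inv_one_add_sq.const_mul 2).mono' NFJ_Fc.aestronglyMeasurable (Filter.Eventually.of_forall fun t => ?_)
  rw [Real.norm_of_nonneg (sq_nonneg _)]
  exact NFJ_bd t

theorem NFJ_inv (x : ℝ) : ∫ t : ℝ, ((Real.sinc (Real.pi * t) ^ 2 : ℝ) : ℂ) * ee (x * t) = NFJ_L x := by
  have hF : 𝓕 NFJ_L = fun t : ℝ => ((Real.sinc (Real.pi * t) ^ 2 : ℝ) : ℂ) := funext NFJ_four
  have h1 : 𝓕⁻ (𝓕 NFJ_L) = NFJ_L := NFJ_Lc.fourierInv_fourier_eq NFJ_Li (by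
    rw [hF]
    exact NFJ_Fi.ofReal)
  have h2 := congrFun h1 x
  rw [Real.fourierInv_eq', hF] at h2
  rw [← h2]
  refine integral_congr_ae (Filter.Eventually.of_forall fun t => ?_)
  show ((Real.sinc (Real.pi * t) ^ 2 : ℝ) : ℂ) * ee (x * t) = Complex.exp (((2 * Real.pi * inner ℝ t x : ℝ) : ℂ) * Complex.I) • ((Real.sinc (Real.pi * t) ^ 2 : ℝ) : ℂ)
  have h3 : (inner ℝ t x : ℝ) = x * t := by
    simp [inner]
  rw [h3, smul_eq_mul, mul_comm]
  rfl

theorem NFJ_proof : NFJ_stmt := by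
  have hπ := Real.pi_gt_three
  have hint : ∀ x : ℝ, ∫ t : ℝ, ((Real.pi ^ 2 / 4 * Real.sinc (Real.pi * (t / 2)) ^ 2 : ℝ) : ℂ) * ee (x * t) = ((Real.pi ^ 2 / 2 : ℝ) : ℂ) * NFJ_L (2 * x) := by
    intro x
    have h1 := Measure.integral_comp_div (fun s : ℝ => ((Real.pi ^ 2 / 4 : ℝ) : ℂ) * (((Real.sinc (Real.pi * s) ^ 2 : ℝ) : ℂ) * ee ((2 * x) * s))) 2
    have h2 : ∀ t : ℝ, ((Real.pi ^ 2 / 4 * Real.sinc (Real.pi * (t / 2)) ^ 2 : ℝ) : ℂ) * ee (x * t) =
        ((Real.pi ^ 2 / 4 : ℝ) : ℂ) * (((Real.sinc (Real.pi * (t / 2)) ^ 2 : ℝ) : ℂ) * ee ((2 * x) * (t / 2))) := by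
      intro t
      have h3 : (2 * x) * (t / 2) = x * t := by ring
      rw [h3, Complex.ofReal_mul, mul_assoc]
    rw [integral_congr_ae (Filter.Eventually.of_forall h2), h1, integral_const_mul, NFJ_inv, abs_of_pos (by norm_num : (0 : ℝ) < 2), Complex.real_smul]
    push_cast
    ring
  refine ⟨fun t => Real.pi ^ 2 / 4 * Real.sinc (Real.pi * (t / 2)) ^ 2, Real.pi ^ 2 / 2, by nlinarith, ?_, ?_, fun t => by positivity, ?_, ?_, ?_⟩
  · exact continuous_const.mul ((NFJ_Fc.comp (continuous_id.div_const 2)))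
  · exact (NFJ_Fi.comp_div (by norm_num : (2 : ℝ) ≠ 0)).const_mul _
  · intro t ht
    show 1 ≤ Real.pi ^ 2 / 4 * Real.sinc (Real.pi * (t / 2)) ^ 2
    rcases eq_or_ne t 0 with h0 | h0
    · rw [h0, zero_div, mul_zero, Real.sinc_zero]
      nlinarith
    · have hx : |Real.pi * (t / 2)| = Real.pi * (|t| / 2) := by
        rw [abs_mul, abs_of_pos Real.pi_pos, abs_div, abs_of_pos (by norm_num : (0 : ℝ) < 2)]
      have ht0 : 0 < |t| := abs_pos.2 h0
      have hne : Real.pi * (t / 2) ≠ 0 := by positivity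
      obtain ⟨y, hy⟩ : ∃ y, y = |Real.pi * (t / 2)| := ⟨_, rfl⟩
      have hy0 : 0 < y := by
        rw [hy]
        exact abs_pos.2 hne
      have hy1 : y ≤ Real.pi / 2 := by
        rw [hy, hx]
        nlinarith
      have h1 : Real.sinc (Real.pi * (t / 2)) ^ 2 = (Real.sin y / y) ^ 2 := by
        rw [← Real.sinc_of_ne_zero hy0.ne', hy]
        rcases abs_choice (Real.pi * (t / 2)) with h | h
        · rw [h]
        · rw [h, Real.sinc_neg]
      rw [h1]
      have h2 := Real.mul_le_sin hy0.le hy1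
      have h3 : 2 / Real.pi ≤ Real.sin y / y := by
        rw [le_div_iff₀ hy0]
        exact h2
      have h4 : (2 / Real.pi) ^ 2 ≤ (Real.sin y / y) ^ 2 := pow_le_pow_left₀ (by positivity) h3 2
      have h5 : Real.pi ^ 2 / 4 * (2 / Real.pi) ^ 2 = 1 := by
        field_simp
        norm_num
      calc (1 : ℝ) = Real.pi ^ 2 / 4 * (2 / Real.pi) ^ 2 := h5.symm
        _ ≤ _ := mul_le_mul_of_nonneg_left h4 (by positivity)
  · intro x
    rw [hint x, norm_mul, Complex.norm_real, Real.norm_of_nonneg (by positivity)]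
    refine mul_le_of_le_one_right (by positivity) ?_
    unfold NFJ_L
    rw [Complex.norm_real, Real.norm_of_nonneg (le_max_left _ _)]
    exact max_le zero_le_one (by linarith [abs_nonneg (2 * x)])
  · intro x hx
    rw [hint x, NFJ_L0, mul_zero]
    rw [abs_mul, abs_of_pos (by norm_num : (0 : ℝ) < 2)]
    linarith

end

end Pool.Agent.T1N
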